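import Mathlib
import Pool.Agent.H85.FW.W0

/-!
# Comb1, `cm_dvd`: the number of rows of `Q` is divisible by `p`

Fibres over `S \ B0`, `B0 ∈ Q`: each is the set of all subsets of `B0` with `s` elements, `1 ≤ s ≤ q < p ^ (j + 1)`.
-/

set_option autoImplicit false

namespace Pool.Agent.H85.FW

variable {N : ℕ}

open Classical in
/-- the number of rows of `Q` (fibres over `S \ B0`, `B0 ∈ Q`); `hch` is `choose_dvd` -/
theorem cm_dvd39 {p j q r : ℕ} (hch : ∀ s, 1 ≤ s → s < p ^ (j + 1) → p ∣ r.choose s) (hq : 1 ≤ q)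
    (hq' : q < p ^ (j + 1)) (Q : Finset (Finset (Fin N))) :
    p ∣ ((Finset.powersetCard q (Finset.univ : Finset (Fin N))).filter fun S => Cm r S Q).card := by
  set F := (Finset.powersetCard q (Finset.univ : Finset (Fin N))).filter fun S => Cm r S Q with hF
  have memF : ∀ S, S ∈ F ↔ S.card = q ∧ Cm r S Q := by
    intro S
    rw [hF, Finset.mem_filter, Finset.mem_powersetCard]
    simp
  rcases F.eq_empty_or_nonempty with hE | ⟨S0, hS0⟩
  · rw [hE, Finset.card_empty]
    exact dvd_zero _
  obtain ⟨hS0q, hS0Q⟩ := (memF S0).1 hS0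
  obtain ⟨a0, ha0⟩ : S0.Nonempty := Finset.card_pos.1 (by omega)
  obtain ⟨B0, hB0, -⟩ := hS0Q.2.2 a0 ha0
  rw [Finset.card_eq_sum_card_fiberwise (f := fun S => S \ B0) (t := Finset.univ) (fun _ _ => Finset.mem_coe.2 (Finset.mem_univ _))]
  refine Finset.dvd_sum fun T _ => ?_
  by_cases hT : ∃ S1 ∈ F, S1 \ B0 = T
  · obtain ⟨S1, hS1, rfl⟩ := hT
    obtain ⟨hS1q, hS1Q⟩ := (memF S1).1 hS1
    have hB0r : B0.card = r := (hS1Q.1 B0 hB0).1
    have hsplit : (S1 \ B0).card + (S1 ∩ B0).card = q := by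
      rw [← hS1q]; exact Finset.card_sdiff_add_card_inter _ _
    obtain ⟨b, hb1, hb2⟩ := (hS1Q.1 B0 hB0).2
    have hs1 : 1 ≤ (S1 ∩ B0).card := Finset.card_pos.2 ⟨b, Finset.mem_inter.2 ⟨hb1, hb2⟩⟩
    have hfib : F.filter (fun S => S \ B0 = S1 \ B0) =
        (Finset.powersetCard (S1 ∩ B0).card B0).image fun U => (S1 \ B0) ∪ U := by
      ext S
      rw [Finset.mem_filter, memF, Finset.mem_image]
      constructor
      · rintro ⟨⟨h1, -⟩, h3⟩
        refine ⟨S ∩ B0, Finset.mem_powersetCard.2 ⟨Finset.inter_subset_right, ?_⟩, ?_⟩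
        · have : (S \ B0).card + (S ∩ B0).card = q := by
            rw [← h1]; exact Finset.card_sdiff_add_card_inter _ _
          rw [h3] at this
          omega
        · rw [← h3]
          exact Finset.sdiff_union_inter _ _
      · rintro ⟨U, hU, rfl⟩
        obtain ⟨hUB, hUc⟩ := Finset.mem_powersetCard.1 hU
        have hdis : Disjoint (S1 \ B0) U := Finset.disjoint_of_subset_right hUB Finset.sdiff_disjoint
        refine ⟨⟨?_, ?_, hS1Q.2.1, ?_⟩, ?_⟩
        · rw [Finset.card_union_of_disjoint hdis, hUc]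
          exact hsplit
        · intro B hB
          obtain ⟨h1, a, ha, haB⟩ := hS1Q.1 B hB
          refine ⟨h1, ?_⟩
          by_cases hBB : B = B0
          · obtain ⟨c, hc⟩ : U.Nonempty := Finset.card_pos.1 (by omega)
            exact ⟨c, Finset.mem_union_right _ hc, hBB ▸ hUB hc⟩
          · refine ⟨a, Finset.mem_union_left _ (Finset.mem_sdiff.2 ⟨ha, fun ha0 => ?_⟩), haB⟩
            exact Finset.disjoint_left.1 (hS1Q.2.1 B hB B0 hB0 hBB) haB ha0
        · intro a ha
          rcases Finset.mem_union.1 ha with ha | ha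
          · exact hS1Q.2.2 a (Finset.mem_sdiff.1 ha).1
          · exact ⟨B0, hB0, hUB ha⟩
        · rw [Finset.union_sdiff_distrib, Finset.sdiff_eq_empty_iff_subset.2 hUB, Finset.union_empty,
            Finset.sdiff_idem]
    have hinj : Set.InjOn (fun U => (S1 \ B0) ∪ U) (Finset.powersetCard (S1 ∩ B0).card B0 : Set (Finset (Fin N))) := by
      intro U hU V hV h
      obtain ⟨hUB, -⟩ := Finset.mem_powersetCard.1 (Finset.mem_coe.1 hU)
      obtain ⟨hVB, -⟩ := Finset.mem_powersetCard.1 (Finset.mem_coe.1 hV)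
      have h' : (S1 \ B0) ∪ U = (S1 \ B0) ∪ V := h
      ext x
      constructor
      · intro hx
        have : x ∈ (S1 \ B0) ∪ V := h' ▸ Finset.mem_union_right _ hx
        rcases Finset.mem_union.1 this with h1 | h1
        · exact absurd (hUB hx) (Finset.mem_sdiff.1 h1).2
        · exact h1
      · intro hx
        have : x ∈ (S1 \ B0) ∪ U := h'.symm ▸ Finset.mem_union_right _ hx
        rcases Finset.mem_union.1 this with h1 | h1
        · exact absurd (hVB hx) (Finset.mem_sdiff.1 h1).2
        · exact h1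
    show p ∣ (F.filter (fun S => S \ B0 = S1 \ B0)).card
    rw [hfib, Finset.card_image_of_injOn hinj, Finset.card_powersetCard, hB0r]
    exact hch _ hs1 (by omega)
  · have : F.filter (fun S => S \ B0 = T) = ∅ := by
      rw [Finset.filter_eq_empty_iff]
      intro S hS h
      exact hT ⟨S, hS, h⟩
    show p ∣ (F.filter (fun S => S \ B0 = T)).card
    rw [this, Finset.card_empty]
    exact dvd_zero _

end Pool.Agent.H85.FW
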